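import Pool.Agent.H10.Sym4.GMain

set_option autoImplicit false

/-!
# `s(N) = N ^ o(1)`, with the explicit bound `s(N) ≤ N ^ (C / log log N)`, and all shapes

`[N] = {1, …, N}`; colourings of `[N]` are maps to a finite set of colours.
-/

open Filter Topology

namespace Pool.Agent.Results.MP_f89022_co.SymmetricColours

/-- The set `[N] = {1, …, N}`. -/
abbrev Seg (N : ℕ) : Type := {x : ℕ // 1 ≤ x ∧ x ≤ N}

/-- `(w, x, y, z)` is a 4-term progression in `[N]`: `(w, w + d, w + 2d, w + 3d)` with `d ≥ 1`. -/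
def IsAP4 {N : ℕ} (w x y z : Seg N) : Prop :=
  ∃ d : ℕ, 1 ≤ d ∧ (x : ℕ) = w + d ∧ (y : ℕ) = w + 2 * d ∧ (z : ℕ) = w + 3 * d

/-- `(w, x, y, z) = (w, w + a d, w + b d, w + (a + b) d)` in `[N]`, with `d ≥ 1`. -/
def IsShape {N : ℕ} (a b : ℕ) (w x y z : Seg N) : Prop :=
  ∃ d : ℕ, 1 ≤ d ∧ (x : ℕ) = w + a * d ∧ (y : ℕ) = w + b * d ∧ (z : ℕ) = w + (a + b) * d

/-- The quadruple is symmetrically coloured: the outer terms have the same colour and the inner
terms have the same colour. -/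
def SymCol {N : ℕ} {K : Type} (c : Seg N → K) (w x y z : Seg N) : Prop :=
  c w = c z ∧ c x = c y

/-- The colouring has no symmetrically coloured 4-term progression. -/
def Good {N : ℕ} {K : Type} (c : Seg N → K) : Prop :=
  ∀ w x y z : Seg N, IsAP4 w x y z → ¬ SymCol c w x y z

/-- The colouring has no symmetrically coloured quadruple `(w, w + a d, w + b d, w + (a + b) d)`
with `1 ≤ a < b`, `a + b ≤ M`, `d ≥ 1`. -/
def GoodUpTo (M : ℕ) {N : ℕ} {K : Type} (c : Seg N → K) : Prop :=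
  ∀ a b : ℕ, 1 ≤ a → a < b → a + b ≤ M →
    ∀ w x y z : Seg N, IsShape a b w x y z → ¬ SymCol c w x y z

/-- `s(N)`: the least number of colours in a colouring of `[N]` having no symmetrically coloured
4-term progression. -/
noncomputable def s (N : ℕ) : ℕ := sInf {k : ℕ | ∃ c : Seg N → Fin k, Good c}

/-- The restriction of a colouring by natural numbers. -/
private theorem exists_goodUpTo (M N : ℕ) (hM : 3 ≤ M) (hN : 3 ≤ N) : ∃ k : ℕ,
    (k : ℝ) ≤ (N : ℝ) ^ (288 * Real.log (4 * M) / Real.log (Real.log N)) ∧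
      ∃ c : Seg N → Fin k, GoodUpTo M c := by
  obtain ⟨k, hk, c, hc⟩ := Pool.H10.Sym4.boundG M N hM hN
  refine ⟨k, by simpa using hk, fun x => c x, ?_⟩
  rintro a b ha hab habM w x y z ⟨d, hd, hx, hy, hz⟩ ⟨h1, h2⟩
  have h3 := hc (b - a) (a + b) w x y z (by omega) (by omega) habM w.2.2 x.2.2 y.2.2 z.2.2
    (by rw [hx, hy, hz]; ring)
    (by
      rw [hx, hy, hz, Nat.cast_sub hab.le]
      push_cast
      ring) h1 h2
  rw [hx, hy] at h3
  have h4 : a * d < b * d := Nat.mul_lt_mul_of_pos_right hab (by omega)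
  omega

private theorem goodUpTo_good {M N : ℕ} {K : Type} {c : Seg N → K} (hM : 3 ≤ M)
    (h : GoodUpTo M c) : Good c := by
  rintro w x y z ⟨d, hd, hx, hy, hz⟩
  exact h 1 2 le_rfl (by norm_num) (by omega) w x y z
    ⟨d, hd, by rw [hx]; ring, by rw [hy], by rw [hz]⟩

/-- the trivial colouring -/
private theorem exists_good (N : ℕ) : ∃ c : Seg N → Fin N, Good c := by
  refine ⟨fun x => ⟨x.1 - 1, by have := x.2; omega⟩, ?_⟩
  rintro w x y z ⟨d, hd, hx, hy, hz⟩ ⟨h1, h2⟩
  have h3 : x.1 - 1 = y.1 - 1 := congrArg Fin.val h2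
  have h4 := x.2
  have h5 := y.2
  omega

private theorem s_spec (N : ℕ) : ∃ c : Seg N → Fin (s N), Good c :=
  Nat.sInf_mem (s := {k : ℕ | ∃ c : Seg N → Fin k, Good c}) ⟨N, exists_good N⟩

private theorem s_le {N k : ℕ} {c : Seg N → Fin k} (h : Good c) : s N ≤ k :=
  Nat.sInf_le ⟨c, h⟩

private theorem s_le_card {N : ℕ} {K : Type} [Finite K] {c : Seg N → K} (h : Good c) :
    s N ≤ Nat.card K := by
  have e : K ≃ Fin (Nat.card K) := Finite.equivFin K
  refine s_le (c := fun x => e (c x)) ?_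
  rintro w x y z hap ⟨h1, h2⟩
  exact h w x y z hap ⟨e.injective h1, e.injective h2⟩

private theorem s_bound (N : ℕ) (hN : 3 ≤ N) :
    (s N : ℝ) ≤ (N : ℝ) ^ (288 * Real.log 12 / Real.log (Real.log N)) := by
  obtain ⟨k, hk, c, hc⟩ := exists_goodUpTo 3 N le_rfl hN
  have h1 : (s N : ℝ) ≤ k := by exact_mod_cast s_le (goodUpTo_good le_rfl hc)
  have h2 : (4 : ℝ) * ((3 : ℕ) : ℝ) = 12 := by norm_num
  rw [h2] at hk
  exact h1.trans hk

private theorem s_pos (N : ℕ) (hN : 1 ≤ N) : 1 ≤ s N := by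
  obtain ⟨c, _⟩ := s_spec N
  have h1 := (c ⟨1, le_rfl, hN⟩).2
  omega

private theorem loglog_tendsto :
    Tendsto (fun N : ℕ => 288 * Real.log 12 / Real.log (Real.log (N : ℝ))) atTop (𝓝 0) :=
  Tendsto.div_atTop tendsto_const_nhds
    (Real.tendsto_log_atTop.comp (Real.tendsto_log_atTop.comp tendsto_natCast_atTop_atTop))

/-- **`s(N) = N ^ o(1)`**, with an explicit rate, and for all shapes. -/
theorem result :
    -- `s(N)` is the least number of colours of a colouring of `[N]` without symmetrically coloured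
    -- 4-term progression: it is attained, and no such colouring has fewer colours
    (∀ N : ℕ, (∃ c : Seg N → Fin (s N), Good c) ∧
      ∀ (K : Type) [Finite K] (c : Seg N → K), Good c → s N ≤ Nat.card K) ∧
    -- `s(N) = N ^ o(1)`, with an explicit rate
    (∃ e : ℕ → ℝ, Tendsto e atTop (𝓝 0) ∧ ∀ N : ℕ, 3 ≤ N →
      (s N : ℝ) = (N : ℝ) ^ e N ∧ e N ≤ 288 * Real.log 12 / Real.log (Real.log N)) ∧
    -- all shapes `(a, b)` with `a + b ≤ M` at once
    (∀ M N : ℕ, 3 ≤ M → 3 ≤ N → ∃ k : ℕ,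
      (k : ℝ) ≤ (N : ℝ) ^ (288 * Real.log (4 * M) / Real.log (Real.log N)) ∧
        ∃ c : Seg N → Fin k, GoodUpTo M c) := by
  refine ⟨fun N => ⟨s_spec N, fun K _ c h => s_le_card h⟩, ?_, exists_goodUpTo⟩
  have hle : ∀ N : ℕ, 3 ≤ N →
      Real.log (s N) / Real.log N ≤ 288 * Real.log 12 / Real.log (Real.log N) := by
    intro N hN
    have h1 : (0 : ℝ) < (s N : ℝ) := by exact_mod_cast s_pos N (by omega)
    have h2 : (1 : ℝ) < N := by
      have : 1 < N := by omega
      exact_mod_cast this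
    rw [div_le_iff₀ (Real.log_pos h2), ← Real.log_rpow (by linarith)]
    exact Real.log_le_log h1 (s_bound N hN)
  refine ⟨fun N => Real.log (s N) / Real.log N, ?_, ?_⟩
  · refine tendsto_of_tendsto_of_tendsto_of_le_of_le' tendsto_const_nhds loglog_tendsto ?_ ?_
    · filter_upwards [eventually_ge_atTop 3] with N hN
      have h1 : (1 : ℝ) ≤ (s N : ℝ) := by exact_mod_cast s_pos N (by omega)
      have h2 : (1 : ℝ) ≤ N := by
        have : 1 ≤ N := by omega
        exact_mod_cast this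
      exact div_nonneg (Real.log_nonneg h1) (Real.log_nonneg h2)
    · filter_upwards [eventually_ge_atTop 3] with N hN
      exact hle N hN
  · intro N hN
    refine ⟨?_, hle N hN⟩
    have h1 : (0 : ℝ) < (s N : ℝ) := by exact_mod_cast s_pos N (by omega)
    have h2 : (1 : ℝ) < N := by
      have : 1 < N := by omega
      exact_mod_cast this
    rw [Real.rpow_def_of_pos (by linarith), mul_div_cancel₀ _ (Real.log_pos h2).ne',
      Real.exp_log h1]

end Pool.Agent.Results.MP_f89022_co.SymmetricColours
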